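import Pool.Agent.H5.Dem.Stmts

/-!
# Project DEM, module UPZ: crossed homomorphisms of `G` from the universal property
-/

set_option autoImplicit false

namespace Pool.Agent.H5.Dem

namespace UPZaux

/-- A homomorphism with open kernel is locally constant. -/
theorem locConst {G E : Type} [Group G] [TopologicalSpace G] [IsTopologicalGroup G] [Group E]
    (f : G →* E) (hf : IsOpen (f.ker : Set G)) : IsLocallyConstant f := by
  rw [IsLocallyConstant.iff_exists_open]
  intro g
  refine ⟨(fun h => g⁻¹ * h) ⁻¹' (f.ker : Set G), hf.preimage (continuous_const_mul _), ?_, ?_⟩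
  · simp
  · intro h hh
    have h1 : f (g⁻¹ * h) = 1 := hh
    rw [map_mul, map_inv, inv_mul_eq_one] at h1
    exact h1.symm

section cocycle

variable {G A : Type} [Group G] [TopologicalSpace G] [AddCommGroup A] {σ : G →* Au A}

theorem z_one (c : Z1 σ) : c.1 1 = 0 := by
  have h := c.2.2 1 1
  simpa using h

theorem z_inv (c : Z1 σ) (g : G) : c.1 g⁻¹ = - σ g⁻¹ (c.1 g) := by
  have h := c.2.2 g⁻¹ g
  rw [inv_mul_cancel, z_one c] at h
  exact eq_neg_of_add_eq_zero_left h.symm

theorem z_rel (c : Z1 σ) (x y z : G) :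
    c.1 (rel x y z) = DD (σ x) (σ y) (σ z) (c.1 x) (c.1 y) (c.1 z) := by
  have hm := c.2.2
  have e1 : rel x y z = x * (x * (y * (y * (y * (y * (y⁻¹ * (z⁻¹ * (y * z)))))))) := by
    simp only [rel, pow_succ, pow_zero, one_mul, mul_assoc]
  rw [e1]
  simp only [hm, z_inv c, DD, map_add, map_sub, map_neg, LinearEquiv.mul_apply, map_inv]
  have hY : ∀ a : A, (σ y) ((σ y)⁻¹ a) = a := fun a => by
    rw [← LinearEquiv.mul_apply, mul_inv_cancel, LinearEquiv.coe_one, id]
  simp only [hY]
  abel

/-- The set where two crossed homomorphisms agree is a subgroup. -/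
def eqLoc (c d : Z1 σ) : Subgroup G where
  carrier := {g | c.1 g = d.1 g}
  mul_mem' := by
    intro g h hg hh
    change c.1 (g * h) = d.1 (g * h)
    rw [c.2.2, d.2.2, show c.1 g = d.1 g from hg, show c.1 h = d.1 h from hh]
  one_mem' := by
    change c.1 1 = d.1 1
    rw [z_one, z_one]
  inv_mem' := by
    intro g hg
    change c.1 g⁻¹ = d.1 g⁻¹
    rw [z_inv, z_inv, show c.1 g = d.1 g from hg]

theorem z_ext {x y z : G} (hd : closure (Subgroup.closure {x, y, z} : Set G) = Set.univ)
    (c d : Z1 σ) (hx : c.1 x = d.1 x) (hy : c.1 y = d.1 y) (hz : c.1 z = d.1 z) : c = d := by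
  have hle : Subgroup.closure {x, y, z} ≤ eqLoc c d := by
    rw [Subgroup.closure_le]
    rintro g (rfl | rfl | rfl)
    · exact hx
    · exact hy
    · exact hz
  have hcl : IsClosed {g | c.1 g = d.1 g} := by
    have h1 : IsLocallyConstant (fun g => c.1 g - d.1 g) := c.2.1.sub d.2.1
    have h2 : IsClosed ((fun g => c.1 g - d.1 g) ⁻¹' {0}) := h1.isClosed_fiber 0
    convert h2 using 1
    ext g
    simp [sub_eq_zero]
  have h3 : (Set.univ : Set G) ⊆ {g | c.1 g = d.1 g} := by
    rw [← hd]
    exact closure_minimal hle hcl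
  apply Subtype.ext
  funext g
  exact h3 (Set.mem_univ g)

end cocycle

section group

variable {A : Type} [AddCommGroup A]

/-- Automorphisms of `A` as automorphisms of `Multiplicative A`. -/
def toMul : Au A →* MulAut (Multiplicative A) where
  toFun X := AddEquiv.toMultiplicative X.toAddEquiv
  map_one' := rfl
  map_mul' _ _ := rfl

variable {G : Type} [Group G] (σ : G →* Au A)

/-- The semidirect product of `A` and the image of `σ`. -/
abbrev SD : Type := SemidirectProduct (Multiplicative A) σ.range ((toMul (A := A)).comp σ.range.subtype)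

instance [Finite A] : Finite (Au A) :=
  Finite.of_injective (fun X : Au A => (X : A → A)) DFunLike.coe_injective

instance [Finite A] : Finite (SD σ) := Finite.of_equiv _ SemidirectProduct.equivProd.symm

/-- The first component. -/
def ell (q : SD σ) : A := Multiplicative.toAdd q.left

/-- The second component, an automorphism of `A`. -/
def tau : SD σ →* Au A := σ.range.subtype.comp SemidirectProduct.rightHom

theorem ell_mul (p q : SD σ) : ell σ (p * q) = ell σ p + tau σ p (ell σ q) := rfl

theorem ell_rel (p q r : SD σ) :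
    ell σ (rel p q r) = DD (tau σ p) (tau σ q) (tau σ r) (ell σ p) (ell σ q) (ell σ r) := by
  let _ : TopologicalSpace (SD σ) := ⊥
  have : DiscreteTopology (SD σ) := ⟨rfl⟩
  exact z_rel (σ := tau σ) ⟨ell σ, IsLocallyConstant.of_discrete _, ell_mul σ⟩ p q r

theorem sd_ext (p q : SD σ) (h1 : ell σ p = ell σ q) (h2 : tau σ p = tau σ q) : p = q := by
  apply SemidirectProduct.ext
  · exact h1
  · exact Subtype.ext h2

theorem isPGroup [Finite A] (h8 : ∀ a : A, 8 • a = 0) (k : ℕ) (hk : σ.ker.index = 2 ^ k) :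
    IsPGroup 2 (SD σ) := by
  have h1 : IsPGroup 2 (Multiplicative A) := fun g => ⟨3, by
    change Multiplicative.ofAdd ((2 ^ 3) • Multiplicative.toAdd g) = 1
    rw [show (2 : ℕ) ^ 3 = 8 from rfl, h8]
    rfl⟩
  obtain ⟨n, hn⟩ := IsPGroup.iff_card.mp h1
  have h2 : Nat.card σ.range = 2 ^ k := by
    rw [← hk, Subgroup.index_ker]
  apply IsPGroup.of_card (n := n + k)
  rw [SemidirectProduct.card, hn, h2, pow_add]

end group

theorem hom_ext {G E : Type} [Group G] [TopologicalSpace G] [IsTopologicalGroup G] [Group E]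
    {x y z : G} (hd : closure (Subgroup.closure {x, y, z} : Set G) = Set.univ)
    (f k : G →* E) (hf : IsLocallyConstant f) (hk : IsLocallyConstant k)
    (hx : f x = k x) (hy : f y = k y) (hz : f z = k z) : f = k := by
  have hle : Subgroup.closure {x, y, z} ≤ f.eqLocus k := by
    rw [Subgroup.closure_le]
    rintro g (rfl | rfl | rfl)
    · exact hx
    · exact hy
    · exact hz
  have hcl : IsClosed {g | f g = k g} := by
    have h1 : IsLocallyConstant (fun g => f g * (k g)⁻¹) := hf.mul hk.inv
    have h2 : IsClosed ((fun g => f g * (k g)⁻¹) ⁻¹' {1}) := h1.isClosed_fiber 1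
    convert h2 using 1
    ext g
    simp [mul_inv_eq_one]
  have h3 : (Set.univ : Set G) ⊆ {g | f g = k g} := by
    rw [← hd]
    exact closure_minimal hle hcl
  ext g
  exact h3 (Set.mem_univ g)

end UPZaux

open UPZaux in
theorem upz : UPZStmt := by
  intro G _ _ x y z hG A _ _ σ h8 hσ
  have := hG.proP.topGroup
  apply Nat.card_congr
  refine Equiv.ofBijective (fun c : Z1 σ => ⟨(c.1 x, c.1 y, c.1 z), ?_⟩) ⟨?_, ?_⟩
  · change DD (σ x) (σ y) (σ z) (c.1 x) (c.1 y) (c.1 z) = 0
    rw [← z_rel, hG.rel_eq, z_one]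
  · intro c d hcd
    have h1 := congrArg Subtype.val hcd
    simp only [Prod.mk.injEq] at h1
    exact z_ext hG.dense c d h1.1 h1.2.1 h1.2.2
  · rintro ⟨⟨a, b, c⟩, habc⟩
    simp only at habc
    let Q := SD σ
    let r : G →* σ.range := σ.rangeRestrict
    let X : Q := ⟨Multiplicative.ofAdd a, r x⟩
    let Y : Q := ⟨Multiplicative.ofAdd b, r y⟩
    let Z : Q := ⟨Multiplicative.ofAdd c, r z⟩
    obtain ⟨k, hk⟩ := hG.proP.index σ.ker inferInstance hσ
    have hQ : IsPGroup 2 Q := isPGroup σ h8 k hk
    have hrel : rel X Y Z = 1 := by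
      apply sd_ext
      · rw [ell_rel]
        exact habc
      · have h1 : tau σ (rel X Y Z) = rel (σ x) (σ y) (σ z) := by
          simp only [rel, map_mul, map_pow, map_inv]
          rfl
        have h2 : rel (σ x) (σ y) (σ z) = σ (rel x y z) := by
          simp only [rel, map_mul, map_pow, map_inv]
        rw [h1, h2, hG.rel_eq, map_one, map_one]
    obtain ⟨f, hf, hfx, hfy, hfz⟩ := hG.up Q hQ X Y Z hrel
    have hf' : IsLocallyConstant f := locConst f hf
    have hst : (tau σ).comp f = σ := by
      apply hom_ext hG.dense _ _ (hf'.comp (tau σ)) (locConst σ hσ)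
      · rw [MonoidHom.comp_apply, hfx]; rfl
      · rw [MonoidHom.comp_apply, hfy]; rfl
      · rw [MonoidHom.comp_apply, hfz]; rfl
    refine ⟨⟨fun g => ell σ (f g), hf'.comp (ell σ), fun g h => ?_⟩, ?_⟩
    · have h1 : tau σ (f g) = σ g := DFunLike.congr_fun hst g
      change ell σ (f (g * h)) = ell σ (f g) + σ g (ell σ (f h))
      rw [map_mul, ell_mul, h1]
    · apply Subtype.ext
      change (ell σ (f x), ell σ (f y), ell σ (f z)) = (a, b, c)
      rw [hfx, hfy, hfz]
      rfl

end Pool.Agent.H5.Dem
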